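import Pool.Agent.X244.SPP.Pairs

/-!
# All the multiples of the products of two primes from generic windows

Let `A > 1`. For all but `O((V W) ^ (1 / A + ε))` of the pairs of primes `p ≤ V`, `q ≤ W` EVERY positive multiple of `p q`
has a prime witness `b ≤ (log max (p, q)) ^ A` for the strong test, uniformly in `V` and `W`. For almost all `(α, β)` this
holds for ALL pairs of primes `p`, `q` with `p` in the window of length `v_n ^ θ` around `α v_n` and `q` in the window of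
length `w_k ^ θ'` around `β w_k`, for all but finitely many pairs `(n, k)`; for `A = 2` and sequences like `10 ^ n` every
`θ, θ' < 1/2` is allowed, so that (almost) half of the digits of `p` and of `q` are prescribed by `α` and `β`.

Proof. If some multiple of `p q` passes for all prime bases up to `(log max (p, q)) ^ A`, then `p q`, `p` or `q` lies in the
set of the odd squarefree numbers with symbol `1` at all small primes, which is thin by Heath-Brown's large sieve; if only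
`q` lies in it, then the products of any two of the `p` belonging to `q` (with the same power of two in `p - 1`) lie in it
(`Pool/Agent/X244/SPP`). The second statement follows with the Borel-Cantelli lemma.
-/

set_option autoImplicit false

namespace Pool.Agent.Results.MP_0b15c0_nt.PairsInWindows

open Finset MeasureTheory

/-- `n` fails the strong test for the base `b`: writing `n - 1 = 2 ^ j * d` with `d` odd, neither
`b ^ d = 1` nor `b ^ (2 ^ i * d) = -1` for some `i < j`, modulo `n`. -/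
def IsWitness (n b : ℕ) : Prop :=
  ∀ j d : ℕ, n - 1 = 2 ^ j * d → Odd d →
    (b : ZMod n) ^ d ≠ 1 ∧ ∀ i : ℕ, i < j → (b : ZMod n) ^ (2 ^ i * d) ≠ -1

/-- every positive multiple of `p q` has a prime witness `b ≤ (log max (p, q)) ^ A` -/
def ProtectsPair (A : ℝ) (p q : ℕ) : Prop :=
  ∀ m : ℕ, 0 < m → p * q ∣ m → ∃ b : ℕ, b.Prime ∧ (b : ℝ) ≤ (Real.log (max p q : ℕ)) ^ A ∧ IsWitness m b

/-- the pairs of different primes `p ≤ V`, `q ≤ W` some multiple of whose product has no such witness -/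
def Exceptions (A : ℝ) (V W : ℕ) : Set (ℕ × ℕ) :=
  {a | a.1 ≤ V ∧ a.2 ≤ W ∧ a.1.Prime ∧ a.2.Prime ∧ a.1 ≠ a.2 ∧ ¬ ProtectsPair A a.1 a.2}

lemma bad_of_not {A : ℝ} {p q : ℕ} (hp : p.Prime) (hq : q.Prime) (hpq : p ≠ q) (h : ¬ ProtectsPair A p q) :
    Pool.Agent.X244.SPP.BadPair A p q := by
  unfold ProtectsPair at h
  push Not at h
  obtain ⟨m, hm0, hm, hb⟩ := h
  refine ⟨hp, hq, Ne.symm hpq, m, ?_, hm, fun b hb1 hb2 => ?_⟩
  · have h1 : p * q ≤ m := Nat.le_of_dvd hm0 hm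
    have h2 : 2 * 2 ≤ p * q := Nat.mul_le_mul hp.two_le hq.two_le
    omega
  · have h1 := hb b hb1 hb2
    by_contra h2
    apply h1
    intro j d hjd hd
    exact ⟨fun e => h2 ⟨j, d, hjd, hd, Or.inl e⟩, fun i hi e => h2 ⟨j, d, hjd, hd, Or.inr ⟨i, hi, e⟩⟩⟩

open Classical in
lemma exc_subset (A : ℝ) (V W : ℕ) : Exceptions A V W ⊆
    (((Icc 1 V ×ˢ Icc 1 W).filter (fun a => Pool.Agent.X244.SPP.BadPair A a.1 a.2) : Finset (ℕ × ℕ)) : Set (ℕ × ℕ)) := by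
  rintro ⟨p, q⟩ ⟨h1, h2, h3, h4, h5, h6⟩
  rw [mem_coe, mem_filter, mem_product, mem_Icc, mem_Icc]
  exact ⟨⟨⟨h3.pos, h1⟩, h4.pos, h2⟩, bad_of_not h3 h4 h5 h6⟩

lemma count (A : ℝ) (hA : 1 < A) (ε : ℝ) (hε : 0 < ε) : ∃ C : ℝ, 0 ≤ C ∧ ∀ V W : ℕ, 1 ≤ V → 1 ≤ W →
    (Exceptions A V W).Finite ∧ ((Exceptions A V W).ncard : ℝ) ≤ C * ((V : ℝ) * W) ^ (1 / A + ε) := by
  classical
  obtain ⟨C, hC0, hC⟩ := Pool.Agent.X244.SPP.pair_count A ε hA hε
  refine ⟨C, hC0, fun V W hV hW => ?_⟩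
  have h1 := exc_subset A V W
  refine ⟨(Finset.finite_toSet _).subset h1, ?_⟩
  have h2 := Set.ncard_le_ncard h1 (Finset.finite_toSet _)
  rw [Set.ncard_coe_finset] at h2
  have h4 : ((Exceptions A V W).ncard : ℝ) ≤ (((Icc 1 V ×ˢ Icc 1 W).filter
      (fun a => Pool.Agent.X244.SPP.BadPair A a.1 a.2)).card : ℝ) := by exact_mod_cast h2
  exact h4.trans (hC V W hV hW)

/-- the points `(α, β)` for which some bad pair lies in the two windows -/
def Meets (A : ℝ) (x θ y θ' : ℝ) (z : ℝ × ℝ) : Prop :=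
  ∃ p q : ℕ, p.Prime ∧ q.Prime ∧ p ≠ q ∧ |(p : ℝ) - z.1 * x| ≤ x ^ θ ∧ |(q : ℝ) - z.2 * y| ≤ y ^ θ' ∧ ¬ ProtectsPair A p q

lemma window {x θ a c : ℝ} (hx : 1 ≤ x) (h : |c - a * x| ≤ x ^ θ) :
    a ∈ Set.Icc (c / x - x ^ (θ - 1)) (c / x + x ^ (θ - 1)) := by
  have hx0 : 0 < x := by linarith
  have e : x ^ (θ - 1) = x ^ θ / x := by rw [Real.rpow_sub hx0, Real.rpow_one]
  have h1 := abs_le.mp h
  rw [e, Set.mem_Icc]
  constructor
  · rw [← sub_div, div_le_iff₀ hx0]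
    linarith [h1.2]
  · rw [← add_div, le_div_iff₀ hx0]
    linarith [h1.1]

lemma measure_bound {A ε C : ℝ} (hA0 : 0 < A) (hC0 : 0 ≤ C) (hε : 0 < ε)
    (hC : ∀ V W : ℕ, 1 ≤ V → 1 ≤ W →
      (Exceptions A V W).Finite ∧ ((Exceptions A V W).ncard : ℝ) ≤ C * ((V : ℝ) * W) ^ (1 / A + ε))
    (N : ℕ) {x θ y θ' : ℝ} (hx : 1 ≤ x) (hy : 1 ≤ y) (hθ : θ ≤ 1) (hθ' : θ' ≤ 1) :
    ∃ S : Set (ℝ × ℝ), (∀ z : ℝ × ℝ, 0 < z.1 → 0 < z.2 → z.1 ≤ N → z.2 ≤ N → Meets A x θ y θ' z → z ∈ S) ∧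
      volume S ≤ ENNReal.ofReal (4 * C * (((N : ℝ) + 1) * ((N : ℝ) + 1)) ^ (1 / A + ε) *
        (x ^ (1 / A + ε + θ - 1) * y ^ (1 / A + ε + θ' - 1))) := by
  classical
  have hx0 : 0 < x := by linarith
  have hy0 : 0 < y := by linarith
  have hN0 : (0 : ℝ) ≤ N := Nat.cast_nonneg N
  obtain ⟨V, hV⟩ : ∃ V : ℕ, V = ⌊((N : ℝ) + 1) * x⌋₊ := ⟨_, rfl⟩
  obtain ⟨W, hW⟩ : ∃ W : ℕ, W = ⌊((N : ℝ) + 1) * y⌋₊ := ⟨_, rfl⟩
  have hV1 : 1 ≤ V := by rw [hV]; apply Nat.le_floor; push_cast; nlinarith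
  have hW1 : 1 ≤ W := by rw [hW]; apply Nat.le_floor; push_cast; nlinarith
  have hVle : (V : ℝ) ≤ ((N : ℝ) + 1) * x := by rw [hV]; exact Nat.floor_le (by positivity)
  have hWle : (W : ℝ) ≤ ((N : ℝ) + 1) * y := by rw [hW]; exact Nat.floor_le (by positivity)
  obtain ⟨hfin, hcard⟩ := hC V W hV1 hW1
  obtain ⟨F, hF⟩ : ∃ F : Finset (ℕ × ℕ), F = hfin.toFinset := ⟨_, rfl⟩
  have hFc : (F.card : ℝ) ≤ C * ((V : ℝ) * W) ^ (1 / A + ε) := by
    rw [hF, ← Set.ncard_eq_toFinset_card _ hfin]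
    exact hcard
  refine ⟨⋃ a ∈ F, Set.Icc ((a.1 : ℝ) / x - x ^ (θ - 1)) ((a.1 : ℝ) / x + x ^ (θ - 1)) ×ˢ
    Set.Icc ((a.2 : ℝ) / y - y ^ (θ' - 1)) ((a.2 : ℝ) / y + y ^ (θ' - 1)), ?_, ?_⟩
  · rintro ⟨α, β⟩ hα hβ hαN hβN ⟨p, q, hp, hq, hpq, h1, h2, h3⟩
    simp only at hα hβ hαN hβN h1 h2
    have hxθ : x ^ θ ≤ x := by
      calc x ^ θ ≤ x ^ (1 : ℝ) := Real.rpow_le_rpow_of_exponent_le hx hθ
        _ = x := Real.rpow_one x
    have hyθ : y ^ θ' ≤ y := by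
      calc y ^ θ' ≤ y ^ (1 : ℝ) := Real.rpow_le_rpow_of_exponent_le hy hθ'
        _ = y := Real.rpow_one y
    have hpV : p ≤ V := by
      rw [hV]
      apply Nat.le_floor
      have := (abs_le.mp h1).2
      nlinarith
    have hqW : q ≤ W := by
      rw [hW]
      apply Nat.le_floor
      have := (abs_le.mp h2).2
      nlinarith
    simp only [Set.mem_iUnion]
    refine ⟨(p, q), ?_, ?_⟩
    · rw [hF, Set.Finite.mem_toFinset]
      exact ⟨hpV, hqW, hp, hq, hpq, h3⟩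
    · exact ⟨window hx h1, window hy h2⟩
  · have hone : ∀ a : ℕ × ℕ, volume (Set.Icc ((a.1 : ℝ) / x - x ^ (θ - 1)) ((a.1 : ℝ) / x + x ^ (θ - 1)) ×ˢ
        Set.Icc ((a.2 : ℝ) / y - y ^ (θ' - 1)) ((a.2 : ℝ) / y + y ^ (θ' - 1))) =
        ENNReal.ofReal (4 * (x ^ (θ - 1) * y ^ (θ' - 1))) := by
      intro a
      rw [Measure.volume_eq_prod, Measure.prod_prod, Real.volume_Icc, Real.volume_Icc,
        ← ENNReal.ofReal_mul (by
          have : 0 < x ^ (θ - 1) := by positivity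
          linarith)]
      congr 1
      ring
    refine (measure_biUnion_finset_le F _).trans ?_
    rw [Finset.sum_congr rfl (fun a _ => hone a), Finset.sum_const, nsmul_eq_mul,
      ← ENNReal.ofReal_natCast, ← ENNReal.ofReal_mul (Nat.cast_nonneg _)]
    apply ENNReal.ofReal_le_ofReal
    have hVW : ((V : ℝ) * W) ^ (1 / A + ε) ≤
        (((N : ℝ) + 1) * ((N : ℝ) + 1)) ^ (1 / A + ε) * (x ^ (1 / A + ε) * y ^ (1 / A + ε)) := by
      rw [← Real.mul_rpow (by positivity) (by positivity), ← Real.mul_rpow (by positivity) (by positivity)]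
      apply Real.rpow_le_rpow (by positivity) _ (by positivity)
      calc (V : ℝ) * W ≤ (((N : ℝ) + 1) * x) * (((N : ℝ) + 1) * y) :=
            mul_le_mul hVle hWle (Nat.cast_nonneg _) (by positivity)
        _ = _ := by ring
    have e1 : x ^ (1 / A + ε + θ - 1) = x ^ (1 / A + ε) * x ^ (θ - 1) := by
      rw [← Real.rpow_add hx0]; congr 1; ring
    have e2 : y ^ (1 / A + ε + θ' - 1) = y ^ (1 / A + ε) * y ^ (θ' - 1) := by
      rw [← Real.rpow_add hy0]; congr 1; ring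
    have hpos : 0 ≤ 4 * (x ^ (θ - 1) * y ^ (θ' - 1)) := by positivity
    calc (F.card : ℝ) * (4 * (x ^ (θ - 1) * y ^ (θ' - 1)))
        ≤ (C * ((((N : ℝ) + 1) * ((N : ℝ) + 1)) ^ (1 / A + ε) * (x ^ (1 / A + ε) * y ^ (1 / A + ε)))) *
          (4 * (x ^ (θ - 1) * y ^ (θ' - 1))) :=
          mul_le_mul_of_nonneg_right (hFc.trans (mul_le_mul_of_nonneg_left hVW hC0)) hpos
      _ = _ := by rw [e1, e2]; ring

/-- Let `A > 1`.
(1) For every `ε > 0` there is `C` such that for all `V, W ≥ 1`, for all but at most `C (V W) ^ (1 / A + ε)` of the pairs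
of different primes `p ≤ V`, `q ≤ W` EVERY positive multiple of `p q` has a prime witness `b ≤ (log max (p, q)) ^ A`.
(2) Let `v_n, w_k ≥ 1` be reals with `∑ v_n ^ (-t) < ∞` for all `t > τ` and `∑ w_k ^ (-t) < ∞` for all `t > τ'`, and let
`1 / A + θ + τ < 1`, `1 / A + θ' + τ' < 1`. For almost all `(α, β)` with `α, β > 0`, for all but finitely many pairs
`(n, k)`, this holds for ALL pairs of different primes with `|p - α v_n| ≤ v_n ^ θ` and `|q - β w_k| ≤ w_k ^ θ'`. -/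
theorem result (A : ℝ) (hA : 1 < A) :
    (∀ ε : ℝ, 0 < ε → ∃ C : ℝ, ∀ V W : ℕ, 1 ≤ V → 1 ≤ W → (Exceptions A V W).Finite ∧
      ((Exceptions A V W).ncard : ℝ) ≤ C * ((V : ℝ) * W) ^ (1 / A + ε)) ∧
    (∀ (v w : ℕ → ℝ) (τ τ' θ θ' : ℝ), (∀ n, 1 ≤ v n) → (∀ k, 1 ≤ w k) → 0 ≤ τ → 0 ≤ τ' →
      (∀ t : ℝ, τ < t → Summable (fun n : ℕ => (v n) ^ (-t))) →
      (∀ t : ℝ, τ' < t → Summable (fun k : ℕ => (w k) ^ (-t))) →
      1 / A + θ + τ < 1 → 1 / A + θ' + τ' < 1 →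
      ∀ᵐ z : ℝ × ℝ, 0 < z.1 → 0 < z.2 →
        {a : ℕ × ℕ | ∃ p q : ℕ, p.Prime ∧ q.Prime ∧ p ≠ q ∧ |(p : ℝ) - z.1 * v a.1| ≤ (v a.1) ^ θ ∧
          |(q : ℝ) - z.2 * w a.2| ≤ (w a.2) ^ θ' ∧ ¬ ProtectsPair A p q}.Finite) := by
  have hA0 : 0 < A := by linarith
  have hAi : 0 < 1 / A := by positivity
  constructor
  · intro ε hε
    obtain ⟨C, _, hC⟩ := count A hA ε hε
    exact ⟨C, hC⟩
  · intro v w τ τ' θ θ' hv hw hτ hτ' hvs hws h1 h2
    obtain ⟨ε, hε, hε1, hε2⟩ : ∃ ε : ℝ, 0 < ε ∧ 1 / A + θ + τ + ε < 1 ∧ 1 / A + θ' + τ' + ε < 1 := by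
      refine ⟨min (1 - (1 / A + θ + τ)) (1 - (1 / A + θ' + τ')) / 2, ?_, ?_, ?_⟩
      · have := lt_min (show 0 < 1 - (1 / A + θ + τ) by linarith) (show 0 < 1 - (1 / A + θ' + τ') by linarith)
        linarith
      · have h3 := min_le_left (1 - (1 / A + θ + τ)) (1 - (1 / A + θ' + τ'))
        linarith
      · have h3 := min_le_right (1 - (1 / A + θ + τ)) (1 - (1 / A + θ' + τ'))
        linarith
    obtain ⟨C, hC0, hC⟩ := count A hA ε hε
    have key : ∀ N : ℕ, ∀ᵐ z : ℝ × ℝ, 0 < z.1 → 0 < z.2 → z.1 ≤ N → z.2 ≤ N →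
        {a : ℕ × ℕ | Meets A (v a.1) θ (w a.2) θ' z}.Finite := by
      intro N
      choose S hS1 hS2 using fun a : ℕ × ℕ =>
        measure_bound hA0 hC0 hε hC N (x := v a.1) (θ := θ) (y := w a.2) (θ' := θ') (hv a.1) (hw a.2)
          (by linarith) (by linarith)
      have hsum : ∑' a : ℕ × ℕ, volume (S a) ≠ ⊤ := by
        obtain ⟨D, hD⟩ : ∃ D : ℝ, D = 4 * C * (((N : ℝ) + 1) * ((N : ℝ) + 1)) ^ (1 / A + ε) := ⟨_, rfl⟩
        have hD0 : 0 ≤ D := by rw [hD]; positivity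
        have s1 : Summable (fun n : ℕ => v n ^ (1 / A + ε + θ - 1)) := by
          have := hvs (-(1 / A + ε + θ - 1)) (by linarith)
          simpa using this
        have s2 : Summable (fun k : ℕ => w k ^ (1 / A + ε + θ' - 1)) := by
          have := hws (-(1 / A + ε + θ' - 1)) (by linarith)
          simpa using this
        have p1 : ∀ n, 0 ≤ v n ^ (1 / A + ε + θ - 1) := fun n => Real.rpow_nonneg (by linarith [hv n]) _
        have p2 : ∀ k, 0 ≤ w k ^ (1 / A + ε + θ' - 1) := fun k => Real.rpow_nonneg (by linarith [hw k]) _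
        have s3 : Summable (fun a : ℕ × ℕ => D * (v a.1 ^ (1 / A + ε + θ - 1) * w a.2 ^ (1 / A + ε + θ' - 1))) :=
          (s1.mul_of_nonneg s2 p1 p2).mul_left D
        refine ne_top_of_le_ne_top ?_ (ENNReal.tsum_le_tsum hS2)
        rw [← hD, ← ENNReal.ofReal_tsum_of_nonneg (fun a => mul_nonneg hD0 (mul_nonneg (p1 _) (p2 _))) s3]
        exact ENNReal.ofReal_ne_top
      filter_upwards [ae_finite_setOf_mem hsum] with z hz g1 g2 g3 g4
      exact hz.subset fun a ha => hS1 a z g1 g2 g3 g4 ha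
    rw [← ae_all_iff] at key
    filter_upwards [key] with z hz g1 g2
    obtain ⟨N, hN⟩ := exists_nat_ge (max z.1 z.2)
    exact hz N g1 g2 ((le_max_left _ _).trans hN) ((le_max_right _ _).trans hN)

end Pool.Agent.Results.MP_0b15c0_nt.PairsInWindows
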