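import Pool.Agent.Results.MP_0b15c0_nt.ProportionOfPrimeWitnesses
import Pool.Agent.X283.DA.Pack

/-!
# Many small witnesses for every composite number near real powers and for the denominators of approximations

Let `A ≥ 2`, `j ≥ 1`, `δ > 0` and `s = max (1 - 1/j) (1/A)`. Every composite number near the real powers `t ^ κ_n` and
`n ^ t`, for almost all `t`, and every composite number which is the denominator of a good simultaneous
(inhomogeneous) rational approximation of a vector `x`, for almost all `x`, has at least the proportion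
`1 - 2^(-j) - δ` of witnesses among the primes up to `2 (log m) ^ A`.

The number of exceptions up to `x` is from the starting result `ProportionOfPrimeWitnesses`, the passage to nonlinear
windows is `Pool.Agent.X16.NW`, the passage to denominators `Pool.Agent.X283.DA`.
-/

set_option autoImplicit false

namespace Pool.Agent.Results.MP_0b15c0_nt.RealPowers

open Finset
open Pool.Agent.X283.DA

/-- `n` fails the strong test for the base `b`: writing `n - 1 = 2 ^ j * d` with `d` odd, neither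
`b ^ d = 1` nor `b ^ (2 ^ i * d) = -1` for some `i < j`, modulo `n`. -/
def IsWitness (n b : ℕ) : Prop :=
  ∀ j d : ℕ, n - 1 = 2 ^ j * d → Odd d →
    (b : ZMod n) ^ d ≠ 1 ∧ ∀ i : ℕ, i < j → (b : ZMod n) ^ (2 ^ i * d) ≠ -1

/-- the primes at most `y` -/
def PrimesUpTo (y : ℝ) : Set ℕ := {p : ℕ | p.Prime ∧ (p : ℝ) ≤ y}

/-- the prime witnesses for `m` up to `2 (log m) ^ A` -/
def PrimeWitnesses (A : ℝ) (m : ℕ) : Set ℕ := {b : ℕ | b ∈ PrimesUpTo (2 * (Real.log m) ^ A) ∧ IsWitness m b}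

/-- `m` is prime, or at least the proportion `κ` of the primes up to `2 (log m) ^ A` are witnesses for `m` -/
def Decided (A κ : ℝ) (m : ℕ) : Prop :=
  m.Prime ∨ κ * ((PrimesUpTo (2 * (Real.log m) ^ A)).ncard : ℝ) ≤ ((PrimeWitnesses A m).ncard : ℝ)

theorem sparse (A δ : ℝ) (j : ℕ) (hA : 2 ≤ A) (hj : 1 ≤ j) (hδ : 0 < δ) :
    Sparse {m : ℕ | ¬ Decided A (1 - 1 / 2 ^ j - δ) m} (max (1 - 1 / (j : ℝ)) (1 / A)) := by
  have hA0 : 0 < 1 / A := by positivity
  have hs : 0 ≤ max (1 - 1 / (j : ℝ)) (1 / A) := hA0.le.trans (le_max_right _ _)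
  refine sparse_of_nat hs fun ε hε => ?_
  obtain ⟨K, hK⟩ := (ProportionOfPrimeWitnesses.result j hj A δ ε hA hδ hε).1
  refine ⟨K + 2, fun X hX => ?_⟩
  obtain ⟨hfin, hcard⟩ := hK X hX
  have hXp : (1 : ℝ) ≤ X := by exact_mod_cast hX
  have h5 : (1 : ℝ) ≤ (X : ℝ) ^ (max (1 - 1 / (j : ℝ)) (1 / A) + ε) :=
    Real.one_le_rpow hXp (by positivity)
  have h1 : {m : ℕ | m ∈ {m : ℕ | ¬ Decided A (1 - 1 / 2 ^ j - δ) m} ∧ m ≤ X} ⊆
      ProportionOfPrimeWitnesses.Exceptions (1 - 1 / 2 ^ j - δ)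
        (fun n => ProportionOfPrimeWitnesses.PrimesUpTo (2 * (Real.log n) ^ A)) X ∪ {0, 1} := by
    rintro m ⟨h3, h2⟩
    by_cases h4 : 2 ≤ m
    · left
      unfold Decided at h3
      simp only [Set.mem_setOf_eq, not_or, not_le] at h3
      exact ⟨h2, h4, h3.1, h3.2⟩
    · right
      have : m = 0 ∨ m = 1 := by omega
      simpa using this
  have h2 := Set.ncard_le_ncard h1 (hfin.union (Set.toFinite {0, 1}))
  have h3 := h2.trans (Set.ncard_union_le _ _)
  have h6 : ({0, 1} : Set ℕ).ncard ≤ 2 := Set.ncard_insert_le _ _ |>.trans (by simp)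
  have h4 : ({m : ℕ | m ∈ {m : ℕ | ¬ Decided A (1 - 1 / 2 ^ j - δ) m} ∧ m ≤ X}.ncard : ℝ) ≤
      (ProportionOfPrimeWitnesses.Exceptions (1 - 1 / 2 ^ j - δ)
        (fun n => ProportionOfPrimeWitnesses.PrimesUpTo (2 * (Real.log n) ^ A)) X).ncard + 2 := by
    exact_mod_cast h3.trans (Nat.add_le_add_left h6 _)
  linarith

/-- **Theorem.** Let `A ≥ 2`, `j ≥ 1`, `δ > 0` and `s = max (1 - 1/j) (1/A)`. The property of a natural number `m` to
be prime or to have at least the proportion `1 - 1/2^j - δ` of witnesses among the primes up to `2 (log m) ^ A` holds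
near the real powers `t ^ κ_n` and `n ^ t` (`GoodAtPowers`, `GoodAtExponents`) and for the denominators of good
simultaneous and of good inhomogeneous rational approximations (`GoodAtDenominators`, `GoodAtApproximations`), with
the exponent `s`. -/
theorem result (A : ℝ) (hA : 2 ≤ A) (j : ℕ) (hj : 1 ≤ j) (δ : ℝ) (hδ : 0 < δ) :
    GoodAtPowers (Decided A (1 - 1 / 2 ^ j - δ)) (max (1 - 1 / (j : ℝ)) (1 / A)) ∧
    GoodAtExponents (Decided A (1 - 1 / 2 ^ j - δ)) (max (1 - 1 / (j : ℝ)) (1 / A)) ∧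
    GoodAtDenominators (Decided A (1 - 1 / 2 ^ j - δ)) (max (1 - 1 / (j : ℝ)) (1 / A)) ∧
    GoodAtApproximations (Decided A (1 - 1 / 2 ^ j - δ)) (max (1 - 1 / (j : ℝ)) (1 / A)) := by
  have hA0 : 0 < 1 / A := by positivity
  exact pack _ (hA0.le.trans (le_max_right _ _)) (sparse A δ j hA hj hδ)

end Pool.Agent.Results.MP_0b15c0_nt.RealPowers
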