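import Pool.Agent.X244.SPP.Count
import Pool.Agent.Y854.GM.Win

/-!
# Primes which protect all their multiples against the strong test

Let `A > 1` and `K ≥ 0`. For all but `O(x ^ ((1 + K) / A + ε))` of the primes `p ≤ x`, EVERY integer `m` which is
divisible by `p` and by some further prime `q ≤ p ^ K` has a prime witness `b ≤ (log p) ^ A` for the strong test. This
is of interest for `(1 + K) / A < 1`; for `A = 2`, the range of the question, `K < 1` is allowed. For all `α > 0`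
outside a set of small dimension this holds for every prime of all the windows `[α v_n - v_n ^ θ, α v_n + v_n ^ θ]`,
`n ≥ n₀(α)`.

Proof. If `m` passes for all prime bases up to `(log p) ^ A`, then the small primes have the same quadratic symbol
modulo `p` and `q`, if the powers of two in `p - 1` and `q - 1` agree; otherwise the symbol `1` modulo the prime with
the larger power. In the first case `p q`, in the second case `p` or `q` lies in the set of the odd squarefree numbers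
with symbol `1` at all small primes, which is thin by Heath-Brown's large sieve. If only `q` lies in this set, then we
count the `p` belonging to one `q`: the order of a base modulo `q` determines the symbols modulo all these `p` (with a
given power of two in `p - 1`), although the numbers `m` vary, so that the products of any two of them lie in the set.
-/

set_option autoImplicit false

namespace Pool.Agent.Results.MP_0b15c0_nt.TwoPrimeFactors

open Finset

/-- `n` fails the strong test for the base `b`: writing `n - 1 = 2 ^ j * d` with `d` odd, neither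
`b ^ d = 1` nor `b ^ (2 ^ i * d) = -1` for some `i < j`, modulo `n`. -/
def IsWitness (n b : ℕ) : Prop :=
  ∀ j d : ℕ, n - 1 = 2 ^ j * d → Odd d →
    (b : ZMod n) ^ d ≠ 1 ∧ ∀ i : ℕ, i < j → (b : ZMod n) ^ (2 ^ i * d) ≠ -1

/-- every `m` divisible by `p` and by a further prime `q ≤ p ^ K` has a prime witness `b ≤ (log p) ^ A` -/
def Protects (A K : ℝ) (p : ℕ) : Prop :=
  ∀ q : ℕ, q.Prime → q ≠ p → (q : ℝ) ≤ (p : ℝ) ^ K → ∀ m : ℕ, p * q ∣ m →
    ∃ b : ℕ, b.Prime ∧ (b : ℝ) ≤ (Real.log p) ^ A ∧ IsWitness m b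

/-- the primes `p ≤ x` which do not protect their multiples -/
def Exceptions (A K : ℝ) (x : ℕ) : Set ℕ := {p : ℕ | p ≤ x ∧ p.Prime ∧ ¬ Protects A K p}

lemma bad_of_not {A K : ℝ} {p : ℕ} (hp : p.Prime) (h : ¬ Protects A K p) (hl : 2 ≤ (Real.log p) ^ A) :
    Pool.Agent.X244.SPP.BadP A K p := by
  unfold Protects at h
  push Not at h
  obtain ⟨q, hq, hqp, hqK, m, hm, hb⟩ := h
  have hw : ∀ b : ℕ, b.Prime → (b : ℝ) ≤ (Real.log p) ^ A → Pool.Agent.H379R2.W.Passes m b := by
    intro b hb1 hb2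
    have h1 := hb b hb1 hb2
    by_contra h2
    apply h1
    intro j d hjd hd
    refine ⟨fun e => h2 ⟨j, d, hjd, hd, Or.inl e⟩, fun i hi e => h2 ⟨j, d, hjd, hd, Or.inr ⟨i, hi, e⟩⟩⟩
  refine ⟨hp, q, hq, hqp, hqK, m, ?_, hm, hw⟩
  by_contra hm2
  have hm0 : m = 0 := by
    by_contra h0
    have h1 : p * q ≤ m := Nat.le_of_dvd (Nat.pos_of_ne_zero h0) hm
    have h2 : 2 * 2 ≤ p * q := Nat.mul_le_mul hp.two_le hq.two_le
    omega
  obtain ⟨j, d, hjd, hd, _⟩ := hw 2 Nat.prime_two (by exact_mod_cast hl)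
  rw [hm0] at hjd
  have h1 : 0 < 2 ^ j * d := Nat.mul_pos (by positivity) hd.pos
  omega

open Classical in
lemma count (A K : ℝ) (hA : 1 < A) (hK : 0 ≤ K) (ε : ℝ) (hε : 0 < ε) : ∃ C : ℝ, ∀ X : ℕ, 1 ≤ X →
    (((Ioc 0 X).filter (fun p => p ∈ {p : ℕ | p.Prime ∧ ¬ Protects A K p})).card : ℝ) ≤
      C * (X : ℝ) ^ ((1 + K) / A + ε) := by
  obtain ⟨C, hC⟩ := Pool.Agent.X244.SPP.bad_count A K ε hA hK hε
  have hA0 : 0 < A := by linarith
  have hev : ∀ᶠ t : ℝ in Filter.atTop, 2 ≤ (Real.log t) ^ A :=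
    Real.tendsto_log_atTop.eventually ((tendsto_rpow_atTop hA0).eventually_ge_atTop 2)
  obtain ⟨x0, hx0⟩ := Filter.eventually_atTop.mp hev
  obtain ⟨X0, hX0⟩ := exists_nat_ge x0
  refine ⟨C + X0, fun X hX => ?_⟩
  have hX1 : (1 : ℝ) ≤ X := by exact_mod_cast hX
  have hsub : (Ioc 0 X).filter (fun p => p ∈ {p : ℕ | p.Prime ∧ ¬ Protects A K p}) ⊆
      range X0 ∪ (Icc 1 X).filter (Pool.Agent.X244.SPP.BadP A K) := by
    intro p hp
    rw [mem_filter, mem_Ioc] at hp
    obtain ⟨⟨h1, h2⟩, h3, h4⟩ := hp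
    rw [mem_union, mem_range, mem_filter, mem_Icc]
    rcases lt_or_ge p X0 with h | h
    · exact Or.inl h
    · right
      refine ⟨⟨h1, h2⟩, bad_of_not h3 h4 (hx0 p (hX0.trans (by exact_mod_cast h)))⟩
  have h1 := (card_le_card hsub).trans (card_union_le _ _)
  rw [card_range] at h1
  have h2 : (((Ioc 0 X).filter (fun p => p ∈ {p : ℕ | p.Prime ∧ ¬ Protects A K p})).card : ℝ) ≤
      X0 + (((Icc 1 X).filter (Pool.Agent.X244.SPP.BadP A K)).card : ℝ) := by exact_mod_cast h1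
  have h3 := hC X hX
  have h4 : (1 : ℝ) ≤ (X : ℝ) ^ ((1 + K) / A + ε) := Real.one_le_rpow hX1 (by positivity)
  have h5 : (0 : ℝ) ≤ X0 := Nat.cast_nonneg X0
  nlinarith

/-- Let `A > 1` and `K ≥ 0`.
(1) For every `ε > 0` there is `C` such that for all `x ≥ 1`, for all but at most `C x ^ ((1 + K) / A + ε)` of the
primes `p ≤ x` EVERY `m` divisible by `p` and by some further prime `q ≤ p ^ K` has a prime witness
`b ≤ (log p) ^ A`.
(2) Let `v_n ≥ 1` be reals with `∑ v_n ^ (-t) < ∞` for all `t > τ`, and `θ < 1`. For all real `α > 0` outside a set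
of Hausdorff dimension at most `((1 + K) / A + τ) / (1 - θ)` there is `n₀` such that for all `n ≥ n₀` this holds for
EVERY prime `p` with `|p - α v_n| ≤ v_n ^ θ`. -/
theorem result (A K : ℝ) (hA : 1 < A) (hK : 0 ≤ K) :
    (∀ ε : ℝ, 0 < ε → ∃ C : ℝ, ∀ x : ℕ, 1 ≤ x → (Exceptions A K x).Finite ∧
      ((Exceptions A K x).ncard : ℝ) ≤ C * (x : ℝ) ^ ((1 + K) / A + ε)) ∧
    (∀ (v : ℕ → ℝ) (τ θ : ℝ), (∀ n, 1 ≤ v n) → 0 ≤ τ →
      (∀ t : ℝ, τ < t → Summable (fun n : ℕ => (v n) ^ (-t))) → θ < 1 →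
      ∃ E : Set ℝ, dimH E ≤ ENNReal.ofReal (((1 + K) / A + τ) / (1 - θ)) ∧
        ∀ α : ℝ, 0 < α → α ∉ E → ∃ n₀ : ℕ, ∀ n : ℕ, n₀ ≤ n → ∀ p : ℕ, p.Prime →
          |(p : ℝ) - α * v n| ≤ (v n) ^ θ → Protects A K p) := by
  have hA0 : 0 < A := by linarith
  constructor
  · intro ε hε
    obtain ⟨C, hC⟩ := count A K hA hK ε hε
    classical
    refine ⟨C, fun x hx => ?_⟩
    have h1 : Exceptions A K x ⊆
        (((Ioc 0 x).filter (fun p => p ∈ {p : ℕ | p.Prime ∧ ¬ Protects A K p}) : Finset ℕ) : Set ℕ) := by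
      intro p hp
      obtain ⟨h1, h2, h3⟩ := hp
      rw [mem_coe, mem_filter, mem_Ioc]
      exact ⟨⟨h2.pos, h1⟩, h2, h3⟩
    refine ⟨(Finset.finite_toSet _).subset h1, ?_⟩
    have h2 := Set.ncard_le_ncard h1 (Finset.finite_toSet _)
    rw [Set.ncard_coe_finset] at h2
    have h3 := hC x hx
    have h4 : ((Exceptions A K x).ncard : ℝ) ≤
        (((Ioc 0 x).filter (fun p => p ∈ {p : ℕ | p.Prime ∧ ¬ Protects A K p})).card : ℝ) := by
      exact_mod_cast h2
    refine h4.trans ?_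
    convert h3
  · intro v τ θ hv hτ hvs hθ
    obtain ⟨E, hE, h⟩ := Pool.Agent.Y854.GM.win_nat {p : ℕ | p.Prime ∧ ¬ Protects A K p} hv hτ hvs
      (s := (1 + K) / A) (θ := θ) (by positivity) hθ
      (fun ε hε => by
        obtain ⟨C, hC⟩ := count A K hA hK ε hε
        refine ⟨C, fun X hX => ?_⟩
        convert hC X hX)
    refine ⟨E, hE, fun α hα hαE => ?_⟩
    obtain ⟨n₀, hn⟩ := h α hα hαE
    refine ⟨n₀, fun n hn1 p hp hpn => ?_⟩
    by_contra hcon
    exact (hn n hn1 p hpn).2 ⟨hp, hcon⟩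

end Pool.Agent.Results.MP_0b15c0_nt.TwoPrimeFactors
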