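import Pool.Agent.Results.MP_0b15c0_nt.ProportionOfPrimeWitnesses
import Pool.Agent.Y854.GM.Win

/-!
# Many small witnesses for EVERY composite number near the dilates `α v_n`

`A ≥ 2`, `j ≥ 1`, `v_n ≥ 1` a sequence with exponent of convergence at most `τ`, `θ < 1`. For all real `α > 0` outside
a set of Hausdorff dimension at most `(max (1 - 1/j) (1/A) + τ) / (1 - θ)` and all `δ > 0`, for all large `n` every
composite number `m` with `|m - α v_n| ≤ v_n ^ θ` has at least the proportion `1 - 2^(-j) - δ` of witnesses among the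
primes up to `2 (log m)^A`.
-/

set_option autoImplicit false

namespace Pool.Agent.Results.MP_0b15c0_nt.WindowsAroundDilates

open Finset

/-- `n` fails the strong test for the base `b`: writing `n - 1 = 2 ^ j * d` with `d` odd, neither
`b ^ d = 1` nor `b ^ (2 ^ i * d) = -1` for some `i < j`, modulo `n`. -/
def IsWitness (n b : ℕ) : Prop :=
  ∀ j d : ℕ, n - 1 = 2 ^ j * d → Odd d →
    (b : ZMod n) ^ d ≠ 1 ∧ ∀ i : ℕ, i < j → (b : ZMod n) ^ (2 ^ i * d) ≠ -1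

/-- the primes at most `y` -/
def PrimesUpTo (y : ℝ) : Set ℕ := {p : ℕ | p.Prime ∧ (p : ℝ) ≤ y}

/-- the prime witnesses for `m` up to `2 (log m) ^ A` -/
def PrimeWitnesses (A : ℝ) (m : ℕ) : Set ℕ := {b : ℕ | b ∈ PrimesUpTo (2 * (Real.log m) ^ A) ∧ IsWitness m b}

/-- `m` is prime, or at least the proportion `κ` of the primes up to `2 (log m) ^ A` are witnesses for `m` -/
def Decided (A κ : ℝ) (m : ℕ) : Prop :=
  m.Prime ∨ κ * ((PrimesUpTo (2 * (Real.log m) ^ A)).ncard : ℝ) ≤ ((PrimeWitnesses A m).ncard : ℝ)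

/-- the exponent of the exceptional set -/
noncomputable def expo (A : ℝ) (j : ℕ) : ℝ := max (1 - 1 / (j : ℝ)) (1 / A)

open Classical in
lemma count (A δ : ℝ) (j : ℕ) (hA : 2 ≤ A) (hj : 1 ≤ j) (hδ : 0 < δ) (ε : ℝ) (hε : 0 < ε) :
    ∃ C : ℝ, ∀ X : ℕ, 1 ≤ X →
      (((Ioc 0 X).filter (fun m => m ∈ {m : ℕ | ¬ Decided A (1 - 1 / 2 ^ j - δ) m})).card : ℝ) ≤
        C * (X : ℝ) ^ (expo A j + ε) := by
  obtain ⟨K, hK⟩ := (ProportionOfPrimeWitnesses.result j hj A δ ε hA hδ hε).1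
  refine ⟨K + 1, fun X hX => ?_⟩
  obtain ⟨hfin, hcard⟩ := hK X hX
  have hXp : (1 : ℝ) ≤ X := by exact_mod_cast hX
  have hA0 : 0 < 1 / A := by positivity
  have he : 0 ≤ expo A j := by
    unfold expo
    exact hA0.le.trans (le_max_right _ _)
  have h5 : (1 : ℝ) ≤ (X : ℝ) ^ (expo A j + ε) := Real.one_le_rpow hXp (by positivity)
  have h1 : (((Ioc 0 X).filter (fun m => m ∈ {m : ℕ | ¬ Decided A (1 - 1 / 2 ^ j - δ) m}) : Finset ℕ) : Set ℕ) ⊆
      ProportionOfPrimeWitnesses.Exceptions (1 - 1 / 2 ^ j - δ)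
        (fun n => ProportionOfPrimeWitnesses.PrimesUpTo (2 * (Real.log n) ^ A)) X ∪ {1} := by
    intro m hm
    rw [mem_coe, mem_filter, mem_Ioc] at hm
    obtain ⟨⟨h1, h2⟩, h3⟩ := hm
    by_cases h4 : 2 ≤ m
    · left
      unfold Decided at h3
      simp only [Set.mem_setOf_eq, not_or, not_le] at h3
      exact ⟨h2, h4, h3.1, h3.2⟩
    · right
      rw [Set.mem_singleton_iff]
      omega
  have h2 := Set.ncard_le_ncard h1 (hfin.union (Set.finite_singleton 1))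
  rw [Set.ncard_coe_finset] at h2
  have h3 := h2.trans (Set.ncard_union_le _ _)
  rw [Set.ncard_singleton] at h3
  have h4 : (((Ioc 0 X).filter (fun m => m ∈ {m : ℕ | ¬ Decided A (1 - 1 / 2 ^ j - δ) m})).card : ℝ) ≤
      (ProportionOfPrimeWitnesses.Exceptions (1 - 1 / 2 ^ j - δ)
        (fun n => ProportionOfPrimeWitnesses.PrimesUpTo (2 * (Real.log n) ^ A)) X).ncard + 1 := by
    exact_mod_cast h3
  unfold expo at h5 ⊢
  linarith

/-- Let `A ≥ 2`, let `j ≥ 1` be an integer, let `v_n ≥ 1` be reals with `∑ v_n ^ (-t) < ∞` for all `t > τ`, and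
let `θ < 1`. For all real `α > 0` outside a set of Hausdorff dimension at most
`(max (1 - 1/j) (1/A) + τ) / (1 - θ)` and all `δ > 0` there is `n₀` such that for all `n ≥ n₀` EVERY positive integer
`m` with `|m - α v_n| ≤ v_n ^ θ` is prime or has at least the proportion `1 - 1/2^j - δ` of witnesses among the primes
up to `2 (log m) ^ A`. -/
theorem result (A : ℝ) (hA : 2 ≤ A) (j : ℕ) (hj : 1 ≤ j) (v : ℕ → ℝ) (τ θ : ℝ) (hv : ∀ n, 1 ≤ v n) (hτ : 0 ≤ τ)
    (hvs : ∀ t : ℝ, τ < t → Summable (fun n : ℕ => (v n) ^ (-t))) (hθ : θ < 1) :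
    ∃ E : Set ℝ, dimH E ≤ ENNReal.ofReal ((max (1 - 1 / (j : ℝ)) (1 / A) + τ) / (1 - θ)) ∧
      ∀ α : ℝ, 0 < α → α ∉ E → ∀ δ : ℝ, 0 < δ → ∃ n₀ : ℕ, ∀ n : ℕ, n₀ ≤ n → ∀ m : ℕ,
        |(m : ℝ) - α * v n| ≤ (v n) ^ θ → 0 < m ∧
          (m.Prime ∨ (1 - 1 / 2 ^ j - δ) * ((PrimesUpTo (2 * (Real.log m) ^ A)).ncard : ℝ) ≤
            ((PrimeWitnesses A m).ncard : ℝ)) := by
  have hA0 : 0 < 1 / A := by positivity
  have hs : 0 ≤ expo A j := by
    unfold expo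
    exact hA0.le.trans (le_max_right _ _)
  have hk : ∀ k : ℕ, ∃ E : Set ℝ, dimH E ≤ ENNReal.ofReal ((expo A j + τ) / (1 - θ)) ∧
      ∀ α : ℝ, 0 < α → α ∉ E → ∃ n₀ : ℕ, ∀ n : ℕ, n₀ ≤ n → ∀ m : ℕ,
        |(m : ℝ) - α * v n| ≤ (v n) ^ θ → 0 < m ∧ m ∉ {m : ℕ | ¬ Decided A (1 - 1 / 2 ^ j - 1 / ((k : ℝ) + 1)) m} := by
    intro k
    exact Pool.Agent.Y854.GM.win_nat {m : ℕ | ¬ Decided A (1 - 1 / 2 ^ j - 1 / ((k : ℝ) + 1)) m} hv hτ hvs hs hθ
      (fun ε hε => by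
        obtain ⟨C, hC⟩ := count A (1 / ((k : ℝ) + 1)) j hA hj (by positivity) ε hε
        refine ⟨C, fun X hX => ?_⟩
        convert hC X hX)
  choose E hE h using hk
  refine ⟨⋃ k, E k, ?_, fun α hα hαE δ hδ => ?_⟩
  · rw [dimH_iUnion]
    apply iSup_le
    intro k
    have := hE k
    unfold expo at this
    exact this
  · rw [Set.mem_iUnion] at hαE
    push Not at hαE
    obtain ⟨k, hk⟩ := exists_nat_one_div_lt hδ
    obtain ⟨n₀, hn⟩ := h k α hα (hαE k)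
    refine ⟨n₀, fun n hn1 m hm => ?_⟩
    obtain ⟨h1, h2⟩ := hn n hn1 m hm
    refine ⟨h1, ?_⟩
    rw [Set.mem_setOf_eq, not_not] at h2
    rcases h2 with h2 | h2
    · exact Or.inl h2
    · right
      refine le_trans ?_ h2
      apply mul_le_mul_of_nonneg_right _ (Nat.cast_nonneg _)
      linarith

end Pool.Agent.Results.MP_0b15c0_nt.WindowsAroundDilates
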